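import Mathlib
import Pool.Agent.H159R3.Exp.SpRat

/-!
In every projective variety the entire curves of exponential type and the rational curves have the
same Zariski closure.
-/

namespace Pool.Agent.Results.MP_2a5ae2_ag.ExponentialCurves

open MvPolynomial Pool.Agent.H159R3.Exp

theorem result {n : ℕ} {ι : Type} (F : ι → MvPolynomial (Fin (n + 1)) ℂ)
    (hF : ∀ i, ∃ d, (F i).IsHomogeneous d) : SpExp F = SpRat F :=
  spExp_eq F hF

end Pool.Agent.Results.MP_2a5ae2_ag.ExponentialCurves
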