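import Mathlib
import Pool.Agent.H734R3.EC.Curve

set_option autoImplicit false

/-!
# Multi-cyclic covers of projective space of Calabi-Yau or Fano type and the
# Green-Griffiths-Lang conjecture

The projective varieties below, which are never of general type, are not pseudo-Brody hyperbolic.
-/

namespace Pool.Agent.Results.MP_2a5ae2_ag.MultiCyclicCurves

open Pool.Agent.H734R3.LV Pool.Agent.H734R3.EC

/-- Let `n ≥ 1`, `f_1, ..., f_r` complex polynomials in `n` variables, `m_i ≥ 2` and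
`deg f_i ≤ m_i e_i` with `∑ (m_i - 1) e_i ≤ n + 1`; if equality holds, assume that some `i` with
`e_i ≠ 0` has `m_i` divisible by `3` or `4`, or that the `e_i` with `m_i` even sum up to at least
`2`. If the Zariski closed subset `X` of `P^N(ℂ)` is the target of a generically finite dominant
rational map from the multi-cyclic cover `{w_i ^ m_i = f_i(x)}` of affine `n`-space, then `X` is not
pseudo-Brody hyperbolic. -/
theorem result {N n r : ℕ} (hn : 1 ≤ n)
    (m : Fin r → ℕ) (hm : ∀ i, 2 ≤ m i) (f : Fin r → MvPolynomial (Fin n) ℂ) (e : Fin r → ℕ)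
    (hdeg : ∀ i, (f i).totalDegree ≤ m i * e i) (he : ∑ i, (m i - 1) * e i ≤ n + 1)
    (hcy : ∑ i, (m i - 1) * e i = n + 1 →
      (∃ i, e i ≠ 0 ∧ (3 ∣ m i ∨ 4 ∣ m i)) ∨ 2 ≤ ∑ i with 2 ∣ m i, e i)
    (X : Set (PP ℂ N)) (hX : IsZClosed X) (Φ : Fin (N + 1) → MvPolynomial (Fin n ⊕ Fin r) ℂ)
    (D : MvPolynomial (Fin n ⊕ Fin r) ℂ) (hΦ : GenFinDom m f X Φ D) : ¬ PseudoBrody X :=
  main hn m hm f e hdeg he hcy X hX Φ D hΦ

end Pool.Agent.Results.MP_2a5ae2_ag.MultiCyclicCurves
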