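import Mathlib
import Pool.Agent.H159R3.GGL.Main

/-!
Pseudo-Brody hyperbolicity of projective varieties given by few monomials that are high powers.
-/

namespace Pool.Agent.Results.MP_2a5ae2_ag.PowerSparseVarieties

open MvPolynomial Pool.Agent.H159R3.GGL

theorem result {n : ℕ} {ι : Type} [Finite ι] (F : ι → MvPolynomial (Fin (n + 1)) ℂ)
    (hF : ∀ i, ∃ d, (F i).IsHomogeneous d) (hC : ∀ i, PowerSparse (F i)) (hirr : Irred F) :
    PseudoBrody F ↔ ∀ b : Fin (n + 1) → ℤ, Preserves b F → ActsTrivially b F :=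
  main F hF hC hirr

end Pool.Agent.Results.MP_2a5ae2_ag.PowerSparseVarieties
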