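import Mathlib
import Pool.Agent.H159R3.War.Main

/-!
Pseudo-Brody hyperbolicity of projective varieties cut out by forms of small Waring rank.
-/

namespace Pool.Agent.Results.MP_2a5ae2_ag.WaringVarieties

open MvPolynomial Pool.Agent.H159R3.GGL Pool.Agent.H159R3.War

theorem result {n : ℕ} {ι : Type} (F : ι → MvPolynomial (Fin (n + 1)) ℂ)
    (hF : ∀ i, SmallWaring (F i)) : PseudoBrody F ↔ ∃ x ∈ Pts F, ∀ q, ¬ LineIn F x q :=
  main F hF

end Pool.Agent.Results.MP_2a5ae2_ag.WaringVarieties
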